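import Pool.Agent.H64.G.R_seed8.R250.MC3

set_option autoImplicit false

/-! # Holomorphic families of maps of the class `Σ` -/

namespace Pool.Agent.R250.MC

open Complex Metric Set Filter Topology MeasureTheory
open Pool.Agent.W677.Mar

/-- `ψ ∈ Σ` and `h = log ψ'` -/
def IsSig (ψ h : ℂ → ℂ) : Prop :=
  DifferentiableOn ℂ ψ {z : ℂ | 1 < ‖z‖} ∧
  Set.InjOn ψ {z : ℂ | 1 < ‖z‖} ∧
  (∃ b : ℂ, Filter.Tendsto (fun z => ψ z - z) (Bornology.cobounded ℂ) (nhds b)) ∧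
  DifferentiableOn ℂ h {z : ℂ | 1 < ‖z‖} ∧
  (∀ z : ℂ, 1 < ‖z‖ → Complex.exp (h z) = deriv ψ z) ∧
  Filter.Tendsto h (Bornology.cobounded ℂ) (nhds 0)

/-- Holomorphic families in `Σ`, through the identity (up to a translation) at the parameter `0`. -/
def Fam (ψ h : ℂ → ℂ → ℂ) : Prop :=
  (∀ s : ℂ, ‖s‖ < 1 → IsSig (ψ s) (h s)) ∧
  (∀ z : ℂ, 1 < ‖z‖ → DifferentiableOn ℂ (fun s => ψ s z) (ball 0 1)) ∧
  ∃ b : ℂ, ∀ z : ℂ, 1 < ‖z‖ → ψ 0 z = z + b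

theorem IsSig.sg {ψ h : ℂ → ℂ} (S : IsSig ψ h) : Sg (hat (fun z => ψ z / z) 1) (hat h 0) :=
  toSg S.1 S.2.1 S.2.2.1 S.2.2.2.1 S.2.2.2.2.1 S.2.2.2.2.2

theorem IsSig.hol {ψ h : ℂ → ℂ} (S : IsSig ψ h) : Hol h 0 := ⟨S.2.2.2.1, S.2.2.2.2.2⟩

theorem IsSig.deriv_le {ψ h : ℂ → ℂ} (S : IsSig ψ h) {R : ℝ} (hR : 1 < R) {z : ℂ} (hz : R ≤ ‖z‖) :
    ‖deriv ψ z‖ ≤ R ^ 2 / (R ^ 2 - 1) := by
  have hz1 : 1 < ‖z‖ := hR.trans_le hz
  have h1 := goluzin_ext S.sg hz1 rfl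
  rw [← S.2.2.2.2.1 z hz1, Complex.norm_exp]
  have hz2 : 0 < ‖z‖ ^ 2 - 1 := by nlinarith
  have hR2 : 0 < R ^ 2 - 1 := by nlinarith
  calc Real.exp (h z).re ≤ Real.exp (Real.log (‖z‖ ^ 2 / (‖z‖ ^ 2 - 1))) :=
        Real.exp_le_exp.2 ((re_le_norm _).trans h1)
    _ = ‖z‖ ^ 2 / (‖z‖ ^ 2 - 1) := Real.exp_log (by positivity)
    _ ≤ R ^ 2 / (R ^ 2 - 1) := by
        rw [div_le_div_iff₀ hz2 hR2]
        nlinarith

theorem ball_ext {z : ℂ} {w : ℂ} (hw : w ∈ ball z ((‖z‖ - 1) / 2)) :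
    (‖z‖ + 1) / 2 ≤ ‖w‖ := by
  rw [mem_ball_iff_norm] at hw
  have h1 := norm_sub_norm_le z (z - w)
  rw [sub_sub_cancel, norm_sub_rev z w] at h1
  linarith

theorem IsSig.osc {ψ h : ℂ → ℂ} (S : IsSig ψ h) {z : ℂ} (hz : 1 < ‖z‖) {w : ℂ}
    (hw : w ∈ ball z ((‖z‖ - 1) / 2)) :
    ‖ψ w - ψ z‖ ≤ ((‖z‖ + 1) / 2) ^ 2 / (((‖z‖ + 1) / 2) ^ 2 - 1) * ((‖z‖ - 1) / 2) := by
  have hR : 1 < (‖z‖ + 1) / 2 := by linarith
  have hR2 : 0 < ((‖z‖ + 1) / 2) ^ 2 - 1 := by nlinarith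
  have hzz : z ∈ ball z ((‖z‖ - 1) / 2) := mem_ball_self (by linarith)
  have h1 := (convex_ball z ((‖z‖ - 1) / 2)).norm_image_sub_le_of_norm_deriv_le (𝕜 := ℂ) (f := ψ)
    (C := ((‖z‖ + 1) / 2) ^ 2 / (((‖z‖ + 1) / 2) ^ 2 - 1)) (x := z) (y := w) (fun y hy =>
      S.1.differentiableAt (isOpen_ext.mem_nhds (hR.trans_le (ball_ext hy))))
    (fun y hy => S.deriv_le hR (ball_ext hy)) hzz hw
  refine h1.trans ?_
  apply mul_le_mul_of_nonneg_left _ (by positivity)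
  rw [mem_ball_iff_norm] at hw
  exact hw.le

theorem Fam.d1 {ψ h : ℂ → ℂ → ℂ} (F : Fam ψ h) {z : ℂ} (hz : 1 < ‖z‖) :
    DifferentiableOn ℂ (fun s => deriv (ψ s) z) (ball 0 1) := by
  have hρ : 0 < (‖z‖ - 1) / 2 := by linarith
  have hR : 1 < (‖z‖ + 1) / 2 := by linarith
  have hsub : ball z ((‖z‖ - 1) / 2) ⊆ {z : ℂ | 1 < ‖z‖} := fun w hw => hR.trans_le (ball_ext hw)
  exact deriv_param hρ (fun s hs => (F.1 s (mem_ball_zero_iff.1 hs)).1.mono hsub)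
    (fun s hs w hw => (F.1 s (mem_ball_zero_iff.1 hs)).osc hz hw) (fun w hw => F.2.1 w (hsub hw))

theorem Fam.d2 {ψ h : ℂ → ℂ → ℂ} (F : Fam ψ h) {z : ℂ} (hz : 1 < ‖z‖) :
    DifferentiableOn ℂ (fun s => deriv (deriv (ψ s)) z) (ball 0 1) := by
  have hρ : 0 < (‖z‖ - 1) / 2 := by linarith
  have hR : 1 < (‖z‖ + 1) / 2 := by linarith
  have hsub : ball z ((‖z‖ - 1) / 2) ⊆ {z : ℂ | 1 < ‖z‖} := fun w hw => hR.trans_le (ball_ext hw)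
  refine deriv_param (F := fun s => deriv (ψ s)) hρ
    (M := 2 * (((‖z‖ + 1) / 2) ^ 2 / (((‖z‖ + 1) / 2) ^ 2 - 1)))
    (fun s hs => ((F.1 s (mem_ball_zero_iff.1 hs)).1.deriv isOpen_ext).mono hsub)
    (fun s hs w hw => ?_) (fun w hw => F.d1 (hsub hw))
  have S := F.1 s (mem_ball_zero_iff.1 hs)
  have h1 := S.deriv_le hR (ball_ext hw)
  have h2 := S.deriv_le hR (ball_ext (mem_ball_self hρ))
  refine (norm_sub_le _ _).trans ?_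
  linarith

theorem IsSig.deriv_h {ψ h : ℂ → ℂ} (S : IsSig ψ h) {z : ℂ} (hz : 1 < ‖z‖) :
    deriv h z = deriv (deriv ψ) z / deriv ψ z := by
  have h1 : HasDerivAt h (deriv h z) z :=
    (S.2.2.2.1.differentiableAt (isOpen_ext.mem_nhds hz)).hasDerivAt
  have h2 : (fun z => Complex.exp (h z)) =ᶠ[𝓝 z] deriv ψ := by
    filter_upwards [isOpen_ext.mem_nhds hz] with w hw using S.2.2.2.2.1 w hw
  rw [← h2.deriv_eq, h1.cexp.deriv, ← S.2.2.2.2.1 z hz]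
  field_simp

theorem Fam.dh {ψ h : ℂ → ℂ → ℂ} (F : Fam ψ h) {z : ℂ} (hz : 1 < ‖z‖) :
    DifferentiableOn ℂ (fun s => deriv (h s) z) (ball 0 1) := by
  have h1 : DifferentiableOn ℂ (fun s => deriv (deriv (ψ s)) z / deriv (ψ s) z) (ball 0 1) := by
    apply (F.d2 hz).div (F.d1 hz)
    intro s hs
    rw [← (F.1 s (mem_ball_zero_iff.1 hs)).2.2.2.2.1 z hz]
    exact Complex.exp_ne_zero _
  refine h1.congr fun s hs => ?_
  exact (F.1 s (mem_ball_zero_iff.1 hs)).deriv_h hz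

theorem Fam.h0 {ψ h : ℂ → ℂ → ℂ} (F : Fam ψ h) {z : ℂ} (hz : 1 < ‖z‖) : deriv (h 0) z = 0 := by
  obtain ⟨b, hb⟩ := F.2.2
  have S := F.1 0 (by simp)
  have hd : ∀ w : ℂ, 1 < ‖w‖ → deriv (ψ 0) w = 1 := by
    intro w hw
    have h1 : ψ 0 =ᶠ[𝓝 w] fun z => z + b := by
      filter_upwards [isOpen_ext.mem_nhds hw] with x hx using hb x hx
    rw [h1.deriv_eq]
    simp
  rw [S.deriv_h hz]
  have h2 : deriv (ψ 0) =ᶠ[𝓝 z] fun _ => 1 := by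
    filter_upwards [isOpen_ext.mem_nhds hz] with x hx using hd x hx
  rw [h2.deriv_eq]
  simp

/-- Members of holomorphic families satisfy the drift condition. -/
theorem Fam.drift {ψ h : ℂ → ℂ → ℂ} (F : Fam ψ h) {k : ℝ} (hk1 : k ≤ 1) {s : ℂ}
    (hs : s ∈ ball (0 : ℂ) 1) (hsk : ‖s‖ ≤ k) :
    Drift ((3 * k ^ 2 / (4 - k ^ 2) : ℝ) : ℂ) (36 * k ^ 2 / (4 - k ^ 2) ^ 2) 5 (hat (h s) 0) := by
  have hH : ∀ s ∈ ball (0 : ℂ) 1, Hol (h s) 0 := fun s hs => (F.1 s (mem_ball_zero_iff.1 hs)).hol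
  apply drift_family (Y := fun s => hat (fun z => ψ s z / z) 1) (H := fun s => hat (h s) 0)
    (fun s hs => (F.1 s (mem_ball_zero_iff.1 hs)).sg) _ _ hk1 hs hsk
  · have h00 : (0 : ℂ) ∈ ball (0 : ℂ) 1 := mem_ball_self one_pos
    have hne : ∀ w ∈ ball (0 : ℂ) 1, w ≠ 0 → deriv (hat (h 0) 0) w = 0 := by
      intro w hw hw0
      have h1 := hat_deriv (hH 0 h00) hw hw0
      rw [F.h0 (inv_ext hw hw0), mul_zero, neg_zero] at h1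
      rcases mul_eq_zero.1 h1 with h2 | h2
      · exact absurd h2 hw0
      · exact h2
    intro w hw
    by_cases hw0 : w = 0
    · have hcont : ContinuousAt (deriv (hat (h 0) 0)) 0 :=
        (((hat_diff (hH 0 h00)).deriv isOpen_ball).continuousOn.continuousAt
          (isOpen_ball.mem_nhds h00))
      rw [hw0]
      have h2 : Tendsto (deriv (hat (h 0) 0)) (𝓝[≠] 0) (𝓝 (deriv (hat (h 0) 0) 0)) :=
        hcont.tendsto.mono_left nhdsWithin_le_nhds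
      refine tendsto_nhds_unique h2 ?_
      refine tendsto_const_nhds.congr' ?_
      filter_upwards [self_mem_nhdsWithin, nhdsWithin_le_nhds (isOpen_ball.mem_nhds h00)] with x hx hxb
      exact (hne x hxb hx).symm
    · exact hne w hw hw0
  · intro v hv hv0
    have h1 : DifferentiableOn ℂ (fun s => -(v⁻¹ * deriv (h s) v⁻¹)) (ball 0 1) :=
      ((F.dh (inv_ext hv hv0)).const_mul _).neg
    refine h1.congr fun s hs => ?_
    exact hat_deriv (hH s hs) hv hv0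

/-- Exponential integrability in holomorphic families. -/
theorem fam_marshall {a k : ℝ} (ha : 0 < a) (hk0 : 0 ≤ k) (hk1 : k ≤ 1)
    (hak : 144 * a * k ^ 2 < (4 - k ^ 2) ^ 2) :
    ∃ C : ℝ, ∀ (R : ℝ) (ψ h : ℂ → ℂ → ℂ) (s : ℂ), 1 < R → Fam ψ h → ‖s‖ < 1 → ‖s‖ ≤ k →
      (1 / (2 * Real.pi)) * ∫ θ in (0 : ℝ)..(2 * Real.pi),
        Real.exp (a * ‖h s ((R : ℂ) * Complex.exp ((θ : ℂ) * Complex.I))‖ ^ 2
          / Real.log (R ^ 2 / (R ^ 2 - 1))) ≤ C := by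
  have hk2 : k ^ 2 ≤ 1 := by nlinarith
  have h4 : 0 < 4 - k ^ 2 := by linarith
  have hκ : 4 * a * (36 * k ^ 2 / (4 - k ^ 2) ^ 2) < 1 := by
    have : 4 * a * (36 * k ^ 2 / (4 - k ^ 2) ^ 2) = 144 * a * k ^ 2 / (4 - k ^ 2) ^ 2 := by ring
    rw [this, div_lt_one (by positivity)]
    exact hak
  obtain ⟨C, hC⟩ := marshall_of_drift (a := a) (κ := 36 * k ^ 2 / (4 - k ^ 2) ^ 2) (c := 5) ha
    (by positivity) (by norm_num) hκ
  refine ⟨C, fun R ψ h s hR F hs1 hsk => ?_⟩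
  have S := F.1 s hs1
  exact hC R ((3 * k ^ 2 / (4 - k ^ 2) : ℝ) : ℂ) _ (h s) hR S.hol S.sg
    (F.drift hk1 (mem_ball_zero_iff.2 hs1) hsk)

/-- Exponential moments in holomorphic families. -/
theorem fam_moments {ψ h : ℂ → ℂ → ℂ} (F : Fam ψ h) {k : ℝ} (hk1 : k ≤ 1) {s : ℂ} (hs : ‖s‖ < 1)
    (hsk : ‖s‖ ≤ k) (t : ℂ) {R : ℝ} (hR : 1 < R) :
    ∫ θ in (0 : ℝ)..(2 * Real.pi), Real.exp ((starRingEnd ℂ) t *
        h s ((R : ℂ) * Complex.exp ((θ : ℂ) * Complex.I))).re ≤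
      2 * Real.pi * Real.exp (‖t‖ ^ 2 * (36 * k ^ 2 / (4 - k ^ 2) ^ 2 *
        Real.log (R ^ 2 / (R ^ 2 - 1)) + 10)) := by
  have hk0 : 0 ≤ k := (norm_nonneg s).trans hsk
  have hk2 : k ^ 2 ≤ 1 := by nlinarith
  have h4 : 0 < 4 - k ^ 2 := by linarith
  have h1 := moments_ext (F.1 s hs).hol (c₀ := ((3 * k ^ 2 / (4 - k ^ 2) : ℝ) : ℂ))
    (κ := 36 * k ^ 2 / (4 - k ^ 2) ^ 2) (c := 5) (by positivity) (by norm_num)
    (F.drift hk1 (mem_ball_zero_iff.2 hs) hsk) t hR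
  refine h1.trans ?_
  have hpi := Real.pi_pos
  apply mul_le_mul_of_nonneg_left _ (by positivity)
  apply Real.exp_le_exp.2
  apply mul_le_mul_of_nonneg_left _ (sq_nonneg _)
  have hW : Wf (R⁻¹ ^ 2) ≤ 2 := by
    apply Wf_le (by positivity)
    have : R⁻¹ < 1 := inv_lt_one_of_one_lt₀ hR
    have : 0 < R⁻¹ := by positivity
    nlinarith
  linarith

end Pool.Agent.R250.MC
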