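import Pool.Agent.H64.G.R_seed8.R250.MC2

set_option autoImplicit false

/-! # Holomorphic families -/

namespace Pool.Agent.R250.MC

open Complex Metric Set Filter Topology MeasureTheory
open Pool.Agent.W677.Mar

/-- The quadratic inequality. -/
theorem alg {q x : ℝ} {P : ℂ} (hq0 : 0 ≤ q) (hq1 : q ≤ 1) (hx0 : 0 ≤ x) (hx1 : x ≤ 1)
    (hP : ‖P‖ ≤ 6) (h : 4 * ‖P‖ ^ 2 ≤ q * x * ‖P + (8 - 2 * x : ℝ)‖ ^ 2) :
    ‖P‖ ^ 2 ≤ 4 * (3 * q / (4 - q)) * x * P.re +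
      (4 * (36 * q / (4 - q) ^ 2) + 4 * 5 * (1 - x)) * x - 4 * (3 * q / (4 - q)) ^ 2 * x ^ 2 := by
  obtain ⟨A, hA⟩ : ∃ A, A = ‖P‖ ^ 2 := ⟨_, rfl⟩
  obtain ⟨ρ, hρ⟩ : ∃ ρ, ρ = P.re := ⟨_, rfl⟩
  have hρ6 : ρ ≤ 6 := by rw [hρ]; exact (re_le_norm P).trans hP
  have e1 : ‖P + (8 - 2 * x : ℝ)‖ ^ 2 = A + 2 * (8 - 2 * x) * ρ + (8 - 2 * x) ^ 2 := by
    rw [hA, hρ, ← Complex.normSq_eq_norm_sq, ← Complex.normSq_eq_norm_sq, Complex.normSq_apply,
      Complex.normSq_apply, add_re, add_im, ofReal_re, ofReal_im]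
    ring
  rw [e1, ← hA] at h
  rw [← hA, ← hρ]
  obtain ⟨D, hD⟩ : ∃ D, D = 4 - q := ⟨_, rfl⟩
  obtain ⟨E, hE⟩ : ∃ E, E = 4 - q * x := ⟨_, rfl⟩
  have hqx : q * x ≤ 1 := by nlinarith
  have hqx0 : 0 ≤ q * x := by positivity
  have hD3 : 3 ≤ D := by rw [hD]; linarith
  have hE3 : 3 ≤ E := by rw [hE]; linarith
  have hE4 : E ≤ 4 := by rw [hE]; linarith
  have hD0 : 0 < D := by linarith
  have hE0 : 0 < E := by linarith
  have h1 : A ≤ (4 * q * x * (4 - x) * ρ + 4 * q * x * (4 - x) ^ 2) / E := by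
    rw [le_div_iff₀ hE0, hE]
    nlinarith
  refine h1.trans ?_
  rw [← hD]
  have key : (4 * (3 * q / D) * x * ρ + (4 * (36 * q / D ^ 2) + 4 * 5 * (1 - x)) * x -
      4 * (3 * q / D) ^ 2 * x ^ 2) - (4 * q * x * (4 - x) * ρ + 4 * q * x * (4 - x) ^ 2) / E =
      x * (1 - x) * (20 - 16 * q * (1 - q) / (E * D) * (ρ + ((4 - x) * D + 3 * E) / D)) := by
    have hD' : D ≠ 0 := hD0.ne'
    have hE' : E ≠ 0 := hE0.ne'
    field_simp
    rw [hD, hE]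
    ring
  have hbr : 16 * q * (1 - q) / (E * D) * (ρ + ((4 - x) * D + 3 * E) / D) ≤ 20 := by
    have m1 : 16 * q * (1 - q) ≤ 4 := by nlinarith [sq_nonneg (2 * q - 1)]
    have m0 : 0 ≤ 16 * q * (1 - q) := by nlinarith
    have m2 : ((4 - x) * D + 3 * E) / D ≤ 8 := by
      rw [div_le_iff₀ hD0]
      nlinarith
    have m3 : 16 * q * (1 - q) / (E * D) ≤ 4 / 9 := by
      rw [div_le_div_iff₀ (by positivity) (by norm_num)]
      nlinarith
    have m4 : 0 ≤ 16 * q * (1 - q) / (E * D) := by positivity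
    calc 16 * q * (1 - q) / (E * D) * (ρ + ((4 - x) * D + 3 * E) / D)
        ≤ 16 * q * (1 - q) / (E * D) * 14 := mul_le_mul_of_nonneg_left (by linarith) m4
      _ ≤ 4 / 9 * 14 := mul_le_mul_of_nonneg_right m3 (by norm_num)
      _ ≤ 20 := by norm_num
  have h2 : 0 ≤ x * (1 - x) * (20 - 16 * q * (1 - q) / (E * D) * (ρ + ((4 - x) * D + 3 * E) / D)) := by
    apply mul_nonneg (mul_nonneg hx0 (by linarith))
    linarith
  rw [← key] at h2
  linarith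

/-- The Schwarz lemma, for a function with values in the disc with centre `2 x` and radius `4 r`. -/
theorem schwarz_disc {g : ℂ → ℂ} (hg : DifferentiableOn ℂ g (ball 0 1)) (h0 : g 0 = 0) {r : ℝ}
    (hr0 : 0 < r) (hr1 : r < 1) (hb : ∀ s ∈ ball (0 : ℂ) 1, ‖g s - 2 * (r : ℂ) ^ 2‖ ≤ 4 * r) {s : ℂ}
    (hs : s ∈ ball (0 : ℂ) 1) :
    4 * ‖g s‖ ^ 2 ≤ ‖s‖ ^ 2 * r ^ 2 * ‖g s + (8 - 2 * r ^ 2 : ℝ)‖ ^ 2 := by
  have hrc : (r : ℂ) ≠ 0 := by exact_mod_cast hr0.ne'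
  have hre : ∀ s ∈ ball (0 : ℂ) 1, 4 ≤ (g s + (8 - 2 * r ^ 2 : ℝ)).re := by
    intro s hs
    have h1 := (abs_re_le_norm _).trans (hb s hs)
    have e0 : (2 * (r : ℂ) ^ 2) = ((2 * r ^ 2 : ℝ) : ℂ) := by push_cast; ring
    rw [e0, sub_re, ofReal_re] at h1
    have h2 := (abs_le.1 h1).1
    rw [add_re, ofReal_re]
    linarith
  have hne : ∀ s ∈ ball (0 : ℂ) 1, (g s + (8 - 2 * r ^ 2 : ℝ)) ≠ 0 := by
    intro s hs h
    have := hre s hs
    rw [h, zero_re] at this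
    linarith
  have hsq : ∀ s ∈ ball (0 : ℂ) 1, 4 * ‖g s‖ ^ 2 ≤ r ^ 2 * ‖g s + (8 - 2 * r ^ 2 : ℝ)‖ ^ 2 := by
    intro s hs
    have h1 := hb s hs
    have h2 : ‖g s - 2 * (r : ℂ) ^ 2‖ ^ 2 ≤ 16 * r ^ 2 := by
      nlinarith [norm_nonneg (g s - 2 * (r : ℂ) ^ 2)]
    have e0 : (2 * (r : ℂ) ^ 2) = ((2 * r ^ 2 : ℝ) : ℂ) := by push_cast; ring
    rw [e0, ← Complex.normSq_eq_norm_sq, Complex.normSq_apply, sub_re, sub_im, ofReal_re, ofReal_im]
      at h2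
    rw [← Complex.normSq_eq_norm_sq, ← Complex.normSq_eq_norm_sq, Complex.normSq_apply,
      Complex.normSq_apply, add_re, add_im, ofReal_re, ofReal_im]
    have h3 : 0 ≤ 4 - r ^ 2 := by nlinarith
    have h4 := mul_le_mul_of_nonneg_left h2 h3
    nlinarith
  set φ : ℂ → ℂ := fun s => 2 * g s / (r * (g s + (8 - 2 * r ^ 2 : ℝ))) with hφ
  have hφd : DifferentiableOn ℂ φ (ball 0 1) := by
    apply DifferentiableOn.div (hg.const_mul _) ((hg.add_const _).const_mul _)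
    intro s hs
    exact mul_ne_zero hrc (hne s hs)
  have hφ0 : φ 0 = 0 := by simp only [hφ]; rw [h0]; simp
  have hn : ∀ s ∈ ball (0 : ℂ) 1, ‖φ s‖ = 2 * ‖g s‖ / (r * ‖g s + (8 - 2 * r ^ 2 : ℝ)‖) := by
    intro s _
    simp only [hφ]
    rw [norm_div, norm_mul, norm_mul, Complex.norm_ofNat, Complex.norm_real,
      Real.norm_of_nonneg hr0.le]
  have hmaps : MapsTo φ (ball 0 1) (closedBall 0 1) := by
    intro s hs
    have hp : 0 < ‖g s + (8 - 2 * r ^ 2 : ℝ)‖ := norm_pos_iff.2 (hne s hs)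
    rw [mem_closedBall_zero_iff, hn s hs, div_le_one (by positivity)]
    apply le_of_sq_le_sq _ (by positivity)
    have := hsq s hs
    nlinarith
  have h1 := norm_le_norm_of_mapsTo_ball hφd hmaps hφ0 (mem_ball_zero_iff.1 hs)
  have hp : 0 < ‖g s + (8 - 2 * r ^ 2 : ℝ)‖ := norm_pos_iff.2 (hne s hs)
  rw [hn s hs, div_le_iff₀ (by positivity)] at h1
  have h2 := pow_le_pow_left₀ (by positivity) h1 2
  calc 4 * ‖g s‖ ^ 2 = (2 * ‖g s‖) ^ 2 := by ring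
    _ ≤ _ := h2
    _ = _ := by ring

/-- Members of a holomorphic family have a smaller drift and a smaller variance. -/
theorem drift_family {Y H : ℂ → ℂ → ℂ} (hS : ∀ s ∈ ball (0 : ℂ) 1, Sg (Y s) (H s))
    (hH0 : ∀ v ∈ ball (0 : ℂ) 1, deriv (H 0) v = 0)
    (hd : ∀ v ∈ ball (0 : ℂ) 1, v ≠ 0 → DifferentiableOn ℂ (fun s => v * deriv (H s) v) (ball 0 1))
    {k : ℝ} (hk1 : k ≤ 1) {s : ℂ} (hs : s ∈ ball (0 : ℂ) 1) (hsk : ‖s‖ ≤ k) :
    Drift ((3 * k ^ 2 / (4 - k ^ 2) : ℝ) : ℂ) (36 * k ^ 2 / (4 - k ^ 2) ^ 2) 5 (H s) := by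
  intro v hv P hP
  have hk0 : 0 ≤ k := (norm_nonneg s).trans hsk
  have hn : ‖v‖ < 1 := mem_ball_zero_iff.1 hv
  by_cases hv0 : v = 0
  · rw [hP, hv0]
    simp
  have hr0 : 0 < ‖v‖ := norm_pos_iff.2 hv0
  set g : ℂ → ℂ := fun s => ((1 - ‖v‖ ^ 2 : ℝ) : ℂ) * (v * deriv (H s) v) with hg
  have hgd : DifferentiableOn ℂ g (ball 0 1) := (hd v hv hv0).const_mul _
  have hg0 : g 0 = 0 := by simp only [hg]; rw [hH0 v hv]; simp
  have hgb : ∀ s ∈ ball (0 : ℂ) 1, ‖g s - 2 * ((‖v‖ : ℝ) : ℂ) ^ 2‖ ≤ 4 * ‖v‖ := fun s hs =>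
    kbound (hS s hs) hv
  have h1 := schwarz_disc hgd hg0 hr0 hn hgb hs
  have hgP : g s = P := by rw [hP]
  rw [hgP] at h1
  have hP6 : ‖P‖ ≤ 6 := by
    have h2 := hgb s hs
    rw [hgP] at h2
    have h3 := norm_sub_norm_le P (2 * ((‖v‖ : ℝ) : ℂ) ^ 2)
    rw [norm_mul, norm_pow, Complex.norm_real, norm_norm, Complex.norm_ofNat] at h3
    nlinarith
  have h2 : 4 * ‖P‖ ^ 2 ≤ k ^ 2 * ‖v‖ ^ 2 * ‖P + (8 - 2 * ‖v‖ ^ 2 : ℝ)‖ ^ 2 := by
    refine h1.trans ?_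
    apply mul_le_mul_of_nonneg_right _ (sq_nonneg _)
    apply mul_le_mul_of_nonneg_right _ (sq_nonneg _)
    exact pow_le_pow_left₀ (norm_nonneg s) hsk 2
  have h3 := alg (sq_nonneg k) (by nlinarith) (sq_nonneg ‖v‖) (by nlinarith) hP6 h2
  have hk2 : k ^ 2 ≤ 1 := by nlinarith
  have hk4 : 0 < 4 - k ^ 2 := by linarith
  rw [norm_sub_sq', Complex.conj_ofReal, Complex.re_ofReal_mul, Complex.norm_real,
    Real.norm_of_nonneg (by positivity)]
  linarith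

/-- The error of the difference quotient. -/
theorem quot_err {F : ℂ → ℂ} {z : ℂ} {ρ M : ℝ} (hρ : 0 < ρ) (hF : DifferentiableOn ℂ F (ball z ρ))
    (hM : ∀ w ∈ ball z ρ, ‖F w - F z‖ ≤ M) {w : ℂ} (hw : w ∈ ball z ρ) (hwz : w ≠ z) :
    ‖(F w - F z) / (w - z) - deriv F z‖ ≤ 2 * M / ρ ^ 2 * ‖w - z‖ := by
  have hzz : z ∈ ball z ρ := mem_ball_self hρ
  have h1 : ∀ w ∈ ball z ρ, ‖dslope F z w‖ ≤ M / ρ := fun w hw =>
    norm_dslope_le_div_of_mapsTo_ball hF (fun w hw => by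
      rw [mem_closedBall, dist_eq_norm_sub]
      exact hM w hw) hw
  have h2 : DifferentiableOn ℂ (dslope F z) (ball z ρ) :=
    (Complex.differentiableOn_dslope (isOpen_ball.mem_nhds hzz)).2 hF
  have h3 := dist_le_div_mul_dist_of_mapsTo_ball (R₂ := 2 * (M / ρ)) h2 (fun w hw => by
    rw [mem_closedBall, dist_eq_norm_sub]
    refine (norm_sub_le _ _).trans ?_
    have := h1 w hw
    have := h1 z hzz
    linarith) hw
  rw [dslope_same, dslope_of_ne _ hwz, slope_def_field, dist_eq_norm_sub, dist_eq_norm_sub] at h3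
  refine h3.trans (le_of_eq ?_)
  congr 1
  field_simp

/-- A family which is holomorphic in the parameter has a derivative which is holomorphic in the
parameter. -/
theorem deriv_param {F : ℂ → ℂ → ℂ} {z : ℂ} {ρ M : ℝ} (hρ : 0 < ρ)
    (hF : ∀ s ∈ ball (0 : ℂ) 1, DifferentiableOn ℂ (F s) (ball z ρ))
    (hM : ∀ s ∈ ball (0 : ℂ) 1, ∀ w ∈ ball z ρ, ‖F s w - F s z‖ ≤ M)
    (hs : ∀ w ∈ ball z ρ, DifferentiableOn ℂ (fun s => F s w) (ball 0 1)) :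
    DifferentiableOn ℂ (fun s => deriv (F s) z) (ball 0 1) := by
  have hzz : z ∈ ball z ρ := mem_ball_self hρ
  have hM0 : 0 ≤ M := (norm_nonneg _).trans (hM 0 (mem_ball_self one_pos) z hzz)
  set δ : ℕ → ℝ := fun n => ρ / ((n : ℝ) + 2) with hδ
  have hδ0 : ∀ n, 0 < δ n := fun n => by simp only [hδ]; positivity
  have hδρ : ∀ n, δ n < ρ := by
    intro n
    simp only [hδ]
    rw [div_lt_iff₀ (by positivity)]
    have : (0 : ℝ) ≤ n := Nat.cast_nonneg n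
    nlinarith
  have hδt : Tendsto δ atTop (𝓝 0) := by
    have h1 : Tendsto (fun n : ℕ => (n : ℝ) + 2) atTop atTop :=
      tendsto_natCast_atTop_atTop.atTop_add tendsto_const_nhds
    exact h1.const_div_atTop ρ
  have hwn : ∀ n, z + (δ n : ℂ) ∈ ball z ρ := by
    intro n
    rw [mem_ball_iff_norm, add_sub_cancel_left, Complex.norm_real, Real.norm_of_nonneg (hδ0 n).le]
    exact hδρ n
  have hwz : ∀ n, z + (δ n : ℂ) ≠ z := by
    intro n h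
    have h1 : (δ n : ℂ) = 0 := by linear_combination h
    have h2 : δ n = 0 := by exact_mod_cast h1
    exact (hδ0 n).ne' h2
  have hu : TendstoLocallyUniformlyOn (fun (n : ℕ) (s : ℂ) => (F s (z + δ n) - F s z) / (z + δ n - z))
      (fun s => deriv (F s) z) atTop (ball 0 1) := by
    apply TendstoUniformlyOn.tendstoLocallyUniformlyOn
    rw [Metric.tendstoUniformlyOn_iff]
    intro ε hε
    have h1 : Tendsto (fun n => 2 * M / ρ ^ 2 * δ n) atTop (𝓝 0) := by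
      have := hδt.const_mul (2 * M / ρ ^ 2)
      rwa [mul_zero] at this
    filter_upwards [h1.eventually_lt_const hε] with n hn s hs1
    rw [dist_comm, dist_eq_norm_sub]
    refine (quot_err hρ (hF s hs1) (hM s hs1) (hwn n) (hwz n)).trans_lt ?_
    rw [add_sub_cancel_left, Complex.norm_real, Real.norm_of_nonneg (hδ0 n).le]
    exact hn
  refine hu.differentiableOn (Eventually.of_forall fun n => ?_) isOpen_ball
  exact ((hs _ (hwn n)).sub (hs z hzz)).div_const _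

end Pool.Agent.R250.MC
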